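import Pool.Agent.Lib.MP_13d5da_nt.LargeSieve

/-! A set avoiding residue classes modulo a prime has large mass at nonzero frequencies. -/

set_option autoImplicit false

namespace Pool.Agent.Lib.MP_13d5da_nt

open Finset

theorem eS_zero (A : Finset ℕ) (q : ℕ) : eS A q 0 = A.card := by
  unfold eS
  simp [ee_zero]

theorem nonzeroMass_nonneg (A : Finset ℕ) (q : ℕ) : 0 ≤ nonzeroMass A q :=
  sum_nonneg fun _ _ => by positivity

/-- the number of pairs of elements of `A` in the same class modulo `q` -/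
def samePairs (A : Finset ℕ) (q : ℕ) : Finset (ℕ × ℕ) :=
  (A ×ˢ A).filter (fun y : ℕ × ℕ => y.1 % q = y.2 % q)

theorem mass_identity (A : Finset ℕ) {q : ℕ} (hq : 0 < q) :
    (q : ℝ) * (samePairs A q).card = (A.card : ℝ) ^ 2 + nonzeroMass A q := by
  set T := (A ×ˢ A).filter (fun y : ℕ × ℕ => (q : ℤ) ∣ (y.1 : ℤ) - y.2) with hT
  have hTT : samePairs A q = T := by
    unfold samePairs
    rw [hT]
    refine filter_congr fun y _ => ?_
    rw [← Nat.modEq_iff_dvd]
    exact eq_comm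
  have h1 : ((q * (T.card : ℝ) : ℝ) : ℂ) = ((∑ a ∈ range q, ‖eS A q a‖ ^ 2 : ℝ) : ℂ) := by
    have h2 : ∀ y ∈ A ×ˢ A, ∑ a ∈ range q,
        ee ((a : ℝ) * ((((y.1 : ℤ) - y.2 : ℤ) : ℝ) / q)) =
        if (q : ℤ) ∣ (y.1 : ℤ) - y.2 then (q : ℂ) else 0 := fun y _ => sum_ee_range q hq _
    have h3 : ((q * (T.card : ℝ) : ℝ) : ℂ) = ∑ y ∈ A ×ˢ A, ∑ a ∈ range q,
        ee ((a : ℝ) * ((((y.1 : ℤ) - y.2 : ℤ) : ℝ) / q)) := by
      rw [sum_congr rfl h2, ← sum_filter, sum_const, nsmul_eq_mul, ← hT]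
      push_cast
      ring
    rw [h3, sum_comm, Complex.ofReal_sum]
    refine sum_congr rfl fun a _ => ?_
    rw [Complex.ofReal_pow, ← Complex.mul_conj']
    unfold eS
    rw [map_sum, sum_mul_sum, ← sum_product']
    refine sum_congr rfl fun y _ => ?_
    rw [conj_ee, ← ee_add]
    congr 1
    push_cast
    ring
  have h4 : (q : ℝ) * T.card = ∑ a ∈ range q, ‖eS A q a‖ ^ 2 := by exact_mod_cast h1
  have h5 : ∑ a ∈ range q, ‖eS A q a‖ ^ 2 = (A.card : ℝ) ^ 2 + nonzeroMass A q := by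
    rw [range_eq_Ico, sum_eq_sum_Ico_succ_bot hq, eS_zero]
    unfold nonzeroMass
    simp
  rw [hTT, h4, h5]

/-- Cauchy-Schwarz over the classes which are met. -/
theorem card_sq_le (A : Finset ℕ) {q : ℕ} (hq : 0 < q) (B : Finset ℕ) (hB : B ⊆ range q)
    (hA : ∀ n ∈ A, n % q ∉ B) :
    (A.card : ℝ) ^ 2 ≤ ((q : ℝ) - B.card) * (samePairs A q).card := by
  have h1 : A.card = ∑ b ∈ range q \ B, (A.filter (fun n => n % q = b)).card := by
    apply card_eq_sum_card_fiberwise
    intro n hn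
    have := hA n hn
    simp only [coe_sdiff, Set.mem_sdiff, mem_coe, mem_range]
    exact ⟨Nat.mod_lt _ hq, this⟩
  have h2 : (samePairs A q).card =
      ∑ b ∈ range q \ B, (A.filter (fun n => n % q = b)).card ^ 2 := by
    have h3 : (samePairs A q).card = ∑ b ∈ range q \ B,
        ((samePairs A q).filter (fun y => y.1 % q = b)).card := by
      apply card_eq_sum_card_fiberwise
      intro y hy
      unfold samePairs at hy
      simp only [coe_filter, mem_product, Set.mem_ofPred_eq] at hy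
      simp only [coe_sdiff, Set.mem_sdiff, mem_coe, mem_range]
      exact ⟨Nat.mod_lt _ hq, hA _ hy.1.1⟩
    rw [h3]
    refine sum_congr rfl fun b _ => ?_
    have h4 : (samePairs A q).filter (fun y => y.1 % q = b) =
        (A.filter (fun n => n % q = b)) ×ˢ (A.filter (fun n => n % q = b)) := by
      ext y
      unfold samePairs
      simp only [mem_filter, mem_product]
      constructor
      · rintro ⟨⟨⟨h5, h6⟩, h7⟩, h8⟩
        exact ⟨⟨h5, h8⟩, h6, by omega⟩
      · rintro ⟨⟨h5, h6⟩, h7, h8⟩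
        exact ⟨⟨⟨h5, h7⟩, by omega⟩, h6⟩
    rw [h4, card_product, sq]
  have h5 : (A.card : ℝ) ^ 2 ≤ ((range q \ B).card : ℝ) *
      ∑ b ∈ range q \ B, ((A.filter (fun n => n % q = b)).card : ℝ) ^ 2 := by
    rw [h1]
    push_cast
    exact sq_sum_le_card_mul_sum_sq
  have h6 : ((range q \ B).card : ℝ) = (q : ℝ) - B.card := by
    rw [card_sdiff_of_subset hB, card_range, Nat.cast_sub]
    have := card_le_card hB
    simpa using this
  rw [h6] at h5
  rw [h2]
  push_cast
  exact h5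

theorem mass_avoid (A : Finset ℕ) {q : ℕ} (hq : 0 < q) (B : Finset ℕ) (hB : B ⊆ range q)
    (hA : ∀ n ∈ A, n % q ∉ B) :
    (B.card : ℝ) / q * (A.card : ℝ) ^ 2 ≤ nonzeroMass A q := by
  have h1 := mass_identity A hq
  have h2 := card_sq_le A hq B hB hA
  have hq0 : (0 : ℝ) < q := by exact_mod_cast hq
  have h3 : (B.card : ℝ) ≤ q := by
    have := card_le_card hB
    rw [card_range] at this
    exact_mod_cast this
  have h4 : (q : ℝ) * (A.card : ℝ) ^ 2 ≤
      ((q : ℝ) - B.card) * ((A.card : ℝ) ^ 2 + nonzeroMass A q) := by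
    rw [← h1]
    nlinarith
  rw [div_mul_eq_mul_div, div_le_iff₀ hq0]
  have h5 : 0 ≤ (B.card : ℝ) * nonzeroMass A q := mul_nonneg (Nat.cast_nonneg _) (nonzeroMass_nonneg A q)
  nlinarith

end Pool.Agent.Lib.MP_13d5da_nt
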