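import Mathlib

/-! There are many primes in `(Q / 4, Q]`. -/

set_option autoImplicit false

namespace Pool.Agent.Lib.MP_13d5da_nt

open Finset Chebyshev

theorem log_two_gt : (0.69 : ℝ) < Real.log 2 := by
  have := Real.log_two_gt_d9
  linarith

theorem cheb_aux : ∃ Q0 : ℕ, ∀ Q : ℕ, Q0 ≤ Q →
    Real.log (Q + 1) + 2 * √Q * Real.log Q ≤ (Q : ℝ) / 8 := by
  have h1 : Filter.Tendsto (fun x : ℝ => Real.log x / x ^ ((1 : ℝ) / 4)) Filter.atTop (nhds 0) :=
    (isLittleO_log_rpow_atTop (by norm_num)).tendsto_div_nhds_zero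
  have h2 : ∀ᶠ x : ℝ in Filter.atTop, Real.log x / x ^ ((1 : ℝ) / 4) < 1 :=
    h1.eventually_lt_const (by norm_num)
  have h3 : ∀ᶠ n : ℕ in Filter.atTop, Real.log n / (n : ℝ) ^ ((1 : ℝ) / 4) < 1 :=
    tendsto_natCast_atTop_atTop.eventually h2
  rw [Filter.eventually_atTop] at h3
  obtain ⟨n0, hn0⟩ := h3
  refine ⟨max n0 (100 ^ 4), fun Q hQ => ?_⟩
  have hQ1 : n0 ≤ Q := le_trans (le_max_left _ _) hQ
  have hQ2 : 100 ^ 4 ≤ Q := le_trans (le_max_right _ _) hQ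
  have hQR : (100 : ℝ) ^ 4 ≤ Q := by exact_mod_cast hQ2
  have hQpos : (0 : ℝ) < Q := lt_of_lt_of_le (by norm_num) hQR
  set u : ℝ := (Q : ℝ) ^ ((1 : ℝ) / 4) with hu
  have hu0 : 0 < u := Real.rpow_pos_of_pos hQpos _
  have hu4 : u ^ 4 = Q := by
    rw [hu, ← Real.rpow_natCast, ← Real.rpow_mul hQpos.le]
    norm_num
  have hsq : √(Q : ℝ) = u ^ 2 := by
    rw [← hu4, show u ^ 4 = (u ^ 2) ^ 2 by ring, Real.sqrt_sq (by positivity)]
  have hu100 : 100 ≤ u := by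
    by_contra h
    push Not at h
    have : u ^ 4 < 100 ^ 4 := pow_lt_pow_left₀ h hu0.le (by norm_num)
    rw [hu4] at this
    linarith
  have hl : Real.log Q ≤ u := by
    have := hn0 Q hQ1
    rw [div_lt_one hu0] at this
    exact this.le
  have hl2 : Real.log (Q + 1) ≤ u + 1 := by
    have h5 : (Q : ℝ) + 1 ≤ Q * 2 := by linarith
    calc Real.log (Q + 1) ≤ Real.log (Q * 2) := Real.log_le_log (by positivity) h5
      _ = Real.log Q + Real.log 2 := Real.log_mul hQpos.ne' (by norm_num)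
      _ ≤ u + 1 := by
          have : Real.log 2 < 1 := by
            have := Real.log_two_lt_d9
            linarith
          linarith
  rw [hsq, ← hu4]
  have h6 : 2 * u ^ 2 * Real.log Q ≤ 2 * u ^ 2 * u := by gcongr
  have h6' : 2 * u ^ 2 * Real.log (u ^ 4) ≤ 2 * u ^ 2 * u := by rw [hu4]; exact h6
  have hl2' : Real.log (u ^ 4 + 1) ≤ u + 1 := by rw [hu4]; exact hl2
  have h7 : u + 1 + 2 * u ^ 2 * u ≤ u ^ 4 / 8 := by
    have h8 : 100 * u ^ 3 ≤ u ^ 4 := by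
      have : 0 ≤ u ^ 3 := by positivity
      nlinarith
    have h9 : 100 ^ 2 * u ≤ u ^ 3 := by nlinarith [mul_nonneg hu0.le (sub_nonneg.2 hu100), mul_nonneg hu0.le (mul_nonneg (sub_nonneg.2 hu100) hu0.le)]
    nlinarith
  linarith

/-- the primes in `(Q / 4, Q]` -/
def topPrimes (Q : ℕ) : Finset ℕ := (Ioc (Q / 4) Q).filter Nat.Prime

theorem topPrimes_card : ∃ Q0 : ℕ, 2 ≤ Q0 ∧ ∀ Q : ℕ, Q0 ≤ Q →
    (Q : ℝ) / 8 ≤ (topPrimes Q).card * Real.log Q := by
  obtain ⟨Q0, hQ0⟩ := cheb_aux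
  refine ⟨max Q0 2, le_max_right _ _, fun Q hQ => ?_⟩
  have hQ1 : Q0 ≤ Q := le_trans (le_max_left _ _) hQ
  have hQ2 : 2 ≤ Q := le_trans (le_max_right _ _) hQ
  have hQpos : (0 : ℝ) < Q := by exact_mod_cast (show 0 < Q by omega)
  have h1 := theta_ge Q
  have h2 := theta_le_log4_mul_x (x := ((Q / 4 : ℕ) : ℝ)) (Nat.cast_nonneg _)
  have h3 : ((Q / 4 : ℕ) : ℝ) ≤ Q / 4 := by
    have := @Nat.cast_div_le ℝ _ _ _ Q 4
    simpa using this
  have h4 : Real.log 4 = 2 * Real.log 2 := by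
    rw [show (4 : ℝ) = 2 ^ 2 by norm_num, Real.log_pow]
    norm_num
  have h5 : θ (Q : ℝ) = θ ((Q / 4 : ℕ) : ℝ) + ∑ p ∈ topPrimes Q, Real.log p := by
    unfold theta topPrimes
    simp only [Nat.floor_natCast]
    rw [← sum_union]
    · congr 1
      rw [← filter_union, Ioc_union_Ioc_eq_Ioc (Nat.zero_le _) (Nat.div_le_self _ _)]
    · apply disjoint_filter_filter
      rw [disjoint_left]
      intro a ha hb
      rw [mem_Ioc] at ha hb
      omega
  have h6 : ∑ p ∈ topPrimes Q, Real.log p ≤ (topPrimes Q).card * Real.log Q := by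
    rw [← nsmul_eq_mul]
    apply sum_le_card_nsmul
    intro p hp
    unfold topPrimes at hp
    rw [mem_filter, mem_Ioc] at hp
    apply Real.log_le_log
    · exact_mod_cast hp.2.pos
    · exact_mod_cast hp.1.2
  have h7 := hQ0 Q hQ1
  have h8 := log_two_gt
  have h9 : Real.log 4 * ((Q / 4 : ℕ) : ℝ) ≤ Real.log 2 * Q / 2 := by
    rw [h4]
    have : 0 ≤ Real.log 2 := by linarith
    nlinarith
  have h10 : (0.69 : ℝ) * Q ≤ Real.log 2 * Q := by nlinarith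
  nlinarith

end Pool.Agent.Lib.MP_13d5da_nt
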